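import Mathlib

/-!
# Project SS (MP_68b2c8_al): non-self-separable sets in primitive groups

Theorem: for every `C` and all large `t`: if `|V| = t²` and `F` is a set of at most `C t³` subsets of `V` with 3 elements,
there is a permutation `g` of `V` with `F ∩ g F = ∅`. So for the primitive action of `Sym V` on the 3-subsets (degree `n`,
`√n ≤ t³`) every non-self-separable set has more than `C √n` elements.

Proof. Fix `g` on a bounded set `D` (the vertices of high degree, the vertices of high codegree with their partners,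
and the partners) by an involution `θ` of `D`; the other conflicts are avoided by the local lemma in the space of
the permutations which are equal to `θ` on `D`.

Each step `S_x : Prop` has a docstring with its proof.
-/

set_option autoImplicit false

namespace Pool.Agent.Q157.SS

open Equiv

/-- The number of the sets of `F` containing `v`. -/
def dg {V : Type} [DecidableEq V] (F : Finset (Finset V)) (v : V) : ℕ :=
  (F.filter (fun f => v ∈ f)).card

/-- The number of the sets of `F` containing `u` and `v`. -/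
def cd {V : Type} [DecidableEq V] (F : Finset (Finset V)) (u v : V) : ℕ :=
  (F.filter (fun f => u ∈ f ∧ v ∈ f)).card

/-- Local lemma, counting form. Write `N J` for the number of the `x` avoiding all `B j`, `j ∈ J`, and `N (i, J)` for
the number of the `x` in `B i` avoiding all `B j`, `j ∈ J`. Induction on `|J|`: `N (i, J) ≤ 2 w_i N J` for `i ∈ S`,
`J ⊆ S` (`i ∉ J` is not needed if `J` contains `i`, as `N (i, J) = 0`). Let `J1` be the neighbours of `i` in `J` and
`J2` the others. `N (i, J) ≤ N (i, J2) ≤ w_i N J2`, and if `J1` is nonempty, `N J ≥ N J2 - ∑_{j ∈ J1} N (j, J2) ≥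
N J2 - ∑ 2 w_j N J2 ≥ N J2 / 2` by induction. (If `J1` is empty, `J2 = J`.) Then `N J > 0` for all `J ⊆ S` by adding the
elements one by one: `N (insert i J) = N J - N (i, J) ≥ (1 - 2 w_i) N J` and `w_i ≤ 1/4` as `nb i i`. -/
def S_lll : Prop :=
  ∀ (X I : Type) [Fintype X] [Nonempty X] [DecidableEq I] (B : I → X → Prop) (w : I → ℝ)
    (nb : I → I → Prop) [DecidableRel nb] (S : Finset I), (∀ i ∈ S, 0 ≤ w i) → (∀ i ∈ S, nb i i) →
    (∀ i ∈ S, ∀ J ⊆ S, (∀ j ∈ J, ¬ nb i j) →
      (Nat.card {x : X // B i x ∧ ∀ j ∈ J, ¬ B j x} : ℝ) ≤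
        w i * Nat.card {x : X // ∀ j ∈ J, ¬ B j x}) →
    (∀ i ∈ S, ∑ j ∈ S.filter (fun j => nb i j), w j ≤ 1 / 4) → ∃ x, ∀ i ∈ S, ¬ B i x

/-- The inequality for the local lemma. Let `X` be the set of the permutations `g` equal to `θ` on `D` (so `g D = D`),
`m = |V|`. Let `A` be a set with at most 3 elements, disjoint from `D` and from all `j.1`, `φ : V → V` with `φ a ∉ D`, `φ a`
not in any `j.2` for `a ∈ A`. Claim: the number of `g ∈ X` avoiding `J` with `g = φ` on `A` is at most
`(2/m) ^ |A|` times the number of `g ∈ X` avoiding `J`. Induction on `A`: for `insert a A` and each of the at least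
`m - |D| - 2 ≥ m / 2` elements `b` outside `D ∪ φ '' A` the map `g ↦ swap (φ a) b * g` injects the set for
`insert a A` into the set for `A` with `g a = b` (these sets are disjoint for different `b`). It preserves the
avoidance of `j ∈ J`: let `τ = swap (φ a) b * g`, `j.1.image τ = j.2`; `φ a ∉ j.2`; if `b ∈ j.2` then `φ a ∈ j.1.image g`, so
`a ∈ j.1`, contradiction; if `b ∉ j.2` then `j.1.image g = j.2`. Finally `f.image g = e` implies that `g` maps `f \ D` to
`e \ D` (which has at most 3 elements, as `e` has 3 elements or there is no such `g`), and there are at most `27` maps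
`f \ D → e \ D`. -/
def S_ev : Prop :=
  ∀ (V : Type) [Fintype V] [DecidableEq V] (D : Finset V) (θ : Perm V), (∀ v ∈ D, θ v ∈ D) →
    2 * D.card + 4 ≤ Fintype.card V → ∀ (f e : Finset V), f.card = 3 →
    ∀ J : Finset (Finset V × Finset V), (∀ j ∈ J, Disjoint (f \ D) j.1 ∧ Disjoint (e \ D) j.2) →
    (Nat.card {g : Perm V // (∀ v ∈ D, g v = θ v) ∧ f.image g = e ∧ ∀ j ∈ J, j.1.image g ≠ j.2} : ℝ) ≤
      27 * (2 / (Fintype.card V : ℝ)) ^ (f \ D).card *
        Nat.card {g : Perm V // (∀ v ∈ D, g v = θ v) ∧ ∀ j ∈ J, j.1.image g ≠ j.2}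

/-- The conditions on the fixed part. -/
structure Good {V : Type} [Fintype V] [DecidableEq V] (F : Finset (Finset V)) (D : Finset V)
    (θ : Perm V) (t K A B : ℕ) : Prop where
  inv : ∀ v ∈ D, θ v ∈ D ∧ θ (θ v) = v
  hA : ∀ a, a ∉ D → A * dg F a ≤ t ^ 3
  hB : ∀ a, a ∉ D → B * ∑ v ∈ D, cd F v a * dg F (θ v) ≤ t ^ 4
  hC : ∀ u ∈ D, ∀ v ∈ D, u ≠ v → cd F u v ≠ 0 → cd F (θ u) (θ v) ≤ K * t
  hD : ∀ f ∈ F, f ⊆ D → f.image θ ∉ F

/-- Index set of the bad events: the pairs `(f, e)` in `F × F` with `θ (f ∩ D) = e ∩ D` and `f ⊄ D`. -/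
def idx {V : Type} [Fintype V] [DecidableEq V] (F : Finset (Finset V)) (D : Finset V) (θ : Perm V) :
    Finset (Finset V × Finset V) :=
  (F ×ˢ F).filter (fun i => (i.1 ∩ D).image θ = i.2 ∩ D ∧ ¬ i.1 ⊆ D)

/-- The weights. For `a ∉ D` the sum of the weights `27 (2/m) ^ |f \ D|` of the `(f, e) ∈ idx` with `a ∈ f` is at most
`1/24`. There are at most `dg a · |F|` pairs with `|f ∩ D| = 0` (weight `216 / m³`), at most
`∑_{v ∈ D} cd v a · dg (θ v)` pairs with `|f ∩ D| = 1` (weight `108 / m²`), and at most `|D|² K t` pairs with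
`|f ∩ D| = 2` (weight `54 / m`): `f = {u, v, a}` and `e` contains `θ u, θ v`. With `m = t²`, each of the three sums is at
most `1/72`. -/
def S_wt : Prop :=
  ∀ (C K N t : ℕ) (V : Type) [Fintype V] [DecidableEq V] (F : Finset (Finset V)) (D : Finset V)
    (θ : Perm V), Fintype.card V = t ^ 2 → (∀ f ∈ F, f.card = 3) → F.card ≤ C * t ^ 3 → D.card ≤ N →
    54 * 72 * N ^ 2 * K + 1 ≤ t → Good F D θ t K (216 * 72 * C) (108 * 72) → ∀ a, a ∉ D →
    ∑ i ∈ (idx F D θ).filter (fun i => a ∈ i.1),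
      27 * (2 / (Fintype.card V : ℝ)) ^ (i.1 \ D).card ≤ 1 / 24

/-- From the local lemma. Events `i ∈ idx F D θ`, `B i g : i.1.image g = i.2` on the set `X` of the permutations equal to
`θ` on `D` (nonempty: `θ`), neighbours: `i.1 \ D` meets `j.1` or `i.2 \ D` meets `j.2`. The sum of the weights of the
neighbours of `i` is at most the sum over `a ∈ i.1 \ D` of the sum in `S_wt` plus the sum over `b ∈ i.2 \ D` of the
sum of the weights of the `j ∈ idx` with `b ∈ j.2`, which is the sum in `S_wt` for `b` (the map `(f, e) ↦ (e, f)`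
preserves `idx` as `θ (θ v) = v` on `D`, and `|f \ D| = |e \ D|` for `(f, e) ∈ idx`): `3/24 + 3/24 = 1/4`. A permutation
`g ∈ X` avoiding all events of `idx` is as wanted: if `f, f.image g ∈ F`, then (as `g D = D`) `(f, f.image g) ∈ idx` or
`f ⊆ D`, where `f.image g = f.image θ ∉ F`. -/
def S_use : Prop :=
  ∀ (C K N t : ℕ) (V : Type) [Fintype V] [DecidableEq V] (F : Finset (Finset V)) (D : Finset V)
    (θ : Perm V), Fintype.card V = t ^ 2 → (∀ f ∈ F, f.card = 3) → F.card ≤ C * t ^ 3 → D.card ≤ N →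
    54 * 72 * N ^ 2 * K + 1 ≤ t → 2 * N + 4 ≤ t → Good F D θ t K (216 * 72 * C) (108 * 72) →
    ∃ g : Perm V, ∀ f ∈ F, f.image g ∉ F

/-- The choice of a sequence: `H` is the set of the `v` with `A dg v > t³`. All other numbers are fixed and `t` is
large. The elements are chosen one by one, outside of `H` (at most `3 C A` elements), outside of the set of the `v`
with `dg v > K t` (at most `t² / 8` elements), of the set of the earlier ones and of the `v` with `cd s v ≠ 0` for an
earlier `s` (at most `2 K t` for each), and such that `E cd v a ≤ t` for all `a ∈ Sat`, where `Sat` is the set of the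
`a ∉ H` for which at least `r` earlier `s ≠ a` have `E cd s a > t`. There are at most `2 E K` such `a ≠ s` for each `s`, so
`r |Sat| ≤ 2 E K N`; and for `a ∉ H` at most `2 E t² / A` elements `v ≠ a` have `E cd v a > t`. -/
def S_seq : Prop :=
  ∀ (C K A E N r : ℕ), 24 * C ≤ K → 1 ≤ A → 1 ≤ E → 1 ≤ r → 16 * E * (2 * E * K * N) ≤ A * r →
    ∃ t0 : ℕ, ∀ t ≥ t0, ∀ (V : Type) [Fintype V] [DecidableEq V] (F : Finset (Finset V)),
    Fintype.card V = t ^ 2 → (∀ f ∈ F, f.card = 3) → F.card ≤ C * t ^ 3 →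
    ∃ s : Fin N → V, Function.Injective s ∧ (∀ i, A * dg F (s i) ≤ t ^ 3 ∧ dg F (s i) ≤ K * t) ∧
      (∀ i j, i ≠ j → cd F (s i) (s j) = 0) ∧
      ∀ a, A * dg F a ≤ t ^ 3 → (Finset.univ.filter (fun i => s i ≠ a ∧ t < E * cd F (s i) a)).card ≤ r

/-- The fixed part. See `Q157/SS/Sel.lean`. -/
def S_sel : Prop :=
  ∀ (C A0 B : ℕ), ∃ N K t0 : ℕ, ∀ t ≥ t0, ∀ (V : Type) [Fintype V] [DecidableEq V]
    (F : Finset (Finset V)), Fintype.card V = t ^ 2 → (∀ f ∈ F, f.card = 3) → F.card ≤ C * t ^ 3 →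
    ∃ (D : Finset V) (θ : Perm V), D.card ≤ N ∧ Good F D θ t K A0 B

/-- The combinatorial theorem. -/
def S_sep : Prop :=
  ∀ C : ℕ, ∃ t0 : ℕ, ∀ t ≥ t0, ∀ (V : Type) [Fintype V] [DecidableEq V] (F : Finset (Finset V)),
    Fintype.card V = t ^ 2 → (∀ f ∈ F, f.card = 3) → F.card ≤ C * t ^ 3 →
    ∃ g : Perm V, ∀ f ∈ F, f.image g ∉ F

/-- `A` is self-separable for `G`. -/
def SelfSep {Ω : Type} (G : Subgroup (Perm Ω)) (A : Set Ω) : Prop := ∃ g ∈ G, A ∩ g '' A = ∅

/-- The groups. `Ω` is the set `Set.powersetCard V 3` for `|V| = t²` and `G` is the image of `Perm V`; primitive by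
`Set.powersetCard.isPreprimitive_perm` (the image acts primitively too, see `image_prim` in `Q157/DD/Comp.lean`); `G` is not
the alternating or symmetric group, as `|G| ≤ (t²)! < n! / 2`, `n = t² (t² - 1) (t² - 2) / 6`; a set `A` of 3-subsets with
at most `C √n ≤ C t³` elements is self-separable by `S_sep`. -/
def S_fin : Prop :=
  ∀ (C : ℝ) (N : ℕ), ∃ (Ω : Type) (_ : Fintype Ω) (_ : DecidableEq Ω) (G : Subgroup (Perm Ω)),
    N ≤ Nat.card Ω ∧ MulAction.IsPreprimitive G Ω ∧ G ≠ ⊤ ∧ G ≠ alternatingGroup Ω ∧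
    ∀ A : Set Ω, (A.ncard : ℝ) ≤ C * √(Nat.card Ω) → SelfSep G A

end Pool.Agent.Q157.SS
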