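import Mathlib
import Pool.Agent.Q157.SS.Stm

/-!
# Project SS: the choice of the sequence
-/

set_option autoImplicit false

namespace Pool.Agent.Q157.SS

open Equiv Finset

variable {V : Type} [Fintype V] [DecidableEq V]

theorem dg_sum (F : Finset (Finset V)) (hF : ∀ f ∈ F, f.card = 3) : ∑ v, dg F v = 3 * F.card := by
  have h1 : ∀ v, dg F v = ∑ f ∈ F, if v ∈ f then 1 else 0 := by
    intro v
    unfold dg
    rw [Finset.card_filter]
  simp_rw [h1]
  rw [Finset.sum_comm]
  have h2 : ∀ f ∈ F, (∑ v : V, if v ∈ f then 1 else 0) = 3 := by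
    intro f hf
    rw [← Finset.card_filter, ← hF f hf]
    congr 1
    ext v
    simp
  rw [Finset.sum_congr rfl h2, Finset.sum_const, smul_eq_mul, mul_comm]

theorem cd_sum (F : Finset (Finset V)) (hF : ∀ f ∈ F, f.card = 3) (v : V) :
    ∑ u ∈ Finset.univ.erase v, cd F v u = 2 * dg F v := by
  have h1 : ∀ u, cd F v u = ∑ f ∈ F.filter (fun f => v ∈ f), if u ∈ f then 1 else 0 := by
    intro u
    unfold cd
    rw [← Finset.card_filter, Finset.filter_filter]
  simp_rw [h1]
  rw [Finset.sum_comm]
  have h2 : ∀ f ∈ F.filter (fun f => v ∈ f), (∑ u ∈ Finset.univ.erase v, if u ∈ f then 1 else 0) = 2 := by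
    intro f hf
    rw [Finset.mem_filter] at hf
    rw [← Finset.card_filter]
    have h3 : (Finset.univ.erase v).filter (fun u => u ∈ f) = f.erase v := by
      ext u
      simp [Finset.mem_erase]
    rw [h3, Finset.card_erase_of_mem hf.2, hF f hf.1]
  rw [Finset.sum_congr rfl h2, Finset.sum_const, smul_eq_mul, mul_comm]
  rfl

omit [Fintype V] in
theorem cd_comm (F : Finset (Finset V)) (u v : V) : cd F u v = cd F v u := by
  unfold cd
  congr 1
  ext f
  simp [and_comm]

omit [Fintype V] in
theorem cd_le_dg (F : Finset (Finset V)) (u v : V) : cd F u v ≤ dg F u := by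
  unfold cd dg
  apply Finset.card_le_card
  intro f hf
  rw [Finset.mem_filter] at hf ⊢
  exact ⟨hf.1, hf.2.1⟩

omit [Fintype V] [DecidableEq V] in
theorem markov (U : Finset V) (w : V → ℕ) (T M : ℕ) (h : ∑ v ∈ U, w v ≤ M) :
    (U.filter (fun v => T < w v)).card * T ≤ M := by
  have h1 : ∑ v ∈ U.filter (fun v => T < w v), T ≤ ∑ v ∈ U.filter (fun v => T < w v), w v := by
    apply Finset.sum_le_sum
    intro v hv
    rw [Finset.mem_filter] at hv
    exact hv.2.le
  have h2 : ∑ v ∈ U.filter (fun v => T < w v), w v ≤ ∑ v ∈ U, w v :=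
    Finset.sum_le_sum_of_subset (Finset.filter_subset _ _)
  rw [Finset.sum_const, smul_eq_mul] at h1
  omega

/-- The properties of the chosen set. -/
structure Ch (F : Finset (Finset V)) (t K A E r : ℕ) (S : Finset V) : Prop where
  c1 : ∀ s ∈ S, A * dg F s ≤ t ^ 3 ∧ dg F s ≤ K * t
  c2 : ∀ s ∈ S, ∀ s' ∈ S, s ≠ s' → cd F s s' = 0
  c3 : ∀ a, A * dg F a ≤ t ^ 3 → (S.filter (fun s => s ≠ a ∧ t < E * cd F s a)).card ≤ r

theorem step (C K A E N r t : ℕ) (hK : 24 * C ≤ K) (hA : 1 ≤ A) (hE : 1 ≤ E) (hr : 1 ≤ r)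
    (hAr : 16 * E * (2 * E * K * N) ≤ A * r) (ht : 4 * (3 * A * C + N + 2 * N * K + 1) ≤ t)
    (F : Finset (Finset V)) (hV : Fintype.card V = t ^ 2) (hF : ∀ f ∈ F, f.card = 3)
    (hFc : F.card ≤ C * t ^ 3) (S : Finset V) (hS : S.card < N) (hCh : Ch F t K A E r S) :
    ∃ v, v ∉ S ∧ Ch F t K A E r (insert v S) := by
  obtain ⟨c1, c2, c3⟩ := hCh
  have ht0 : 0 < t := by omega
  have hsum := dg_sum F hF
  -- heavy vertices
  set H1 := Finset.univ.filter (fun v => t ^ 3 < A * dg F v) with hH1
  have b1 : H1.card ≤ 3 * A * C := by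
    have h1 := markov (Finset.univ : Finset V) (fun v => A * dg F v) (t ^ 3) (3 * A * C * t ^ 3) (by
      rw [← Finset.mul_sum, hsum]
      calc A * (3 * F.card) ≤ A * (3 * (C * t ^ 3)) := by gcongr
        _ = 3 * A * C * t ^ 3 := by ring)
    exact Nat.le_of_mul_le_mul_right h1 (by positivity)
  set H2 := Finset.univ.filter (fun v => K * t < dg F v) with hH2
  have b2 : 8 * H2.card ≤ t ^ 2 := by
    rcases Nat.eq_zero_or_pos C with hC | hC
    · have hF0 : F.card = 0 := by rw [hC] at hFc; omega
      have hF1 : F = ∅ := Finset.card_eq_zero.1 hF0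
      have : H2 = ∅ := by
        rw [hH2, Finset.filter_eq_empty_iff]
        intro v _
        have : dg F v = 0 := by rw [hF1]; rfl
        omega
      rw [this]
      simp
    · have h1 := markov (Finset.univ : Finset V) (fun v => dg F v) (K * t) (3 * C * t ^ 3) (by
        rw [hsum]
        calc 3 * F.card ≤ 3 * (C * t ^ 3) := by gcongr
          _ = 3 * C * t ^ 3 := by ring)
      have h2 : (3 * C * t) * (8 * H2.card) ≤ (3 * C * t) * t ^ 2 := by
        calc (3 * C * t) * (8 * H2.card) = H2.card * (24 * C * t) := by ring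
          _ ≤ H2.card * (K * t) := by gcongr
          _ ≤ 3 * C * t ^ 3 := h1
          _ = (3 * C * t) * t ^ 2 := by ring
      exact Nat.le_of_mul_le_mul_left h2 (by positivity)
  set H3 := S.biUnion (fun s => insert s ((Finset.univ.erase s).filter (fun v => 0 < cd F s v)))
    with hH3
  have b3 : H3.card ≤ N * (1 + 2 * K * t) := by
    calc H3.card ≤ S.card * (1 + 2 * K * t) := by
          apply Finset.card_biUnion_le_card_mul
          intro s hs
          refine (Finset.card_insert_le _ _).trans ?_
          have h1 : ((Finset.univ.erase s).filter (fun v => 0 < cd F s v)).card ≤ 2 * dg F s := by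
            rw [← cd_sum F hF s, Finset.card_eq_sum_ones]
            calc ∑ v ∈ (Finset.univ.erase s).filter (fun v => 0 < cd F s v), 1
                ≤ ∑ v ∈ (Finset.univ.erase s).filter (fun v => 0 < cd F s v), cd F s v := by
                  apply Finset.sum_le_sum
                  intro v hv
                  exact (Finset.mem_filter.1 hv).2
              _ ≤ _ := Finset.sum_le_sum_of_subset (Finset.filter_subset _ _)
          have h2 := (c1 s hs).2
          nlinarith
      _ ≤ N * (1 + 2 * K * t) := by gcongr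
  set Sat := Finset.univ.filter (fun a => A * dg F a ≤ t ^ 3 ∧
    r ≤ (S.filter (fun s => s ≠ a ∧ t < E * cd F s a)).card) with hSat
  have bs : Sat.card * r ≤ 2 * E * K * N := by
    have h1 : Sat.card * r ≤ ∑ a ∈ Sat, (S.filter (fun s => s ≠ a ∧ t < E * cd F s a)).card := by
      rw [← smul_eq_mul, ← Finset.sum_const]
      apply Finset.sum_le_sum
      intro a ha
      exact (Finset.mem_filter.1 ha).2.2
    have h2 : ∑ a ∈ Sat, (S.filter (fun s => s ≠ a ∧ t < E * cd F s a)).card ≤
        ∑ s ∈ S, ((Finset.univ.erase s).filter (fun a => t < E * cd F s a)).card := by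
      simp_rw [Finset.card_filter]
      rw [Finset.sum_comm]
      apply Finset.sum_le_sum
      intro s _
      rw [← Finset.card_filter, ← Finset.card_filter]
      apply Finset.card_le_card
      intro a ha
      simp only [Finset.mem_filter, Finset.mem_erase, Finset.mem_univ, and_true] at ha ⊢
      exact ⟨ha.2.1.symm, ha.2.2⟩
    have h3 : ∀ s ∈ S, ((Finset.univ.erase s).filter (fun a => t < E * cd F s a)).card ≤ 2 * E * K := by
      intro s hs
      have h4 := markov (Finset.univ.erase s) (fun a => E * cd F s a) t (2 * E * K * t) (by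
        rw [← Finset.mul_sum, cd_sum F hF s]
        calc E * (2 * dg F s) ≤ E * (2 * (K * t)) := by
              have := (c1 s hs).2
              gcongr
          _ = 2 * E * K * t := by ring)
      exact Nat.le_of_mul_le_mul_right h4 ht0
    calc Sat.card * r ≤ ∑ s ∈ S, ((Finset.univ.erase s).filter (fun a => t < E * cd F s a)).card :=
          h1.trans h2
      _ ≤ ∑ _s ∈ S, 2 * E * K := Finset.sum_le_sum h3
      _ = S.card * (2 * E * K) := by rw [Finset.sum_const, smul_eq_mul]
      _ ≤ N * (2 * E * K) := by gcongr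
      _ = 2 * E * K * N := by ring
  set H4 := Sat.biUnion (fun a => (Finset.univ.erase a).filter (fun v => t < E * cd F v a)) with hH4
  have b4' : H4.card * A ≤ Sat.card * (2 * E * t ^ 2) := by
    have h1 : ∀ a ∈ Sat, ((Finset.univ.erase a).filter (fun v => t < E * cd F v a)).card * A ≤
        2 * E * t ^ 2 := by
      intro a ha
      have hdg := (Finset.mem_filter.1 ha).2.1
      have h4 := markov (Finset.univ.erase a) (fun v => E * cd F v a) t (E * (2 * dg F a)) (by
        rw [← Finset.mul_sum, ← cd_sum F hF a]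
        simp_rw [cd_comm F _ a]
        exact le_rfl)
      have h5 : (((Finset.univ.erase a).filter (fun v => t < E * cd F v a)).card * A) * t ≤
          (2 * E * t ^ 2) * t := by
        calc (((Finset.univ.erase a).filter (fun v => t < E * cd F v a)).card * A) * t
            = A * (((Finset.univ.erase a).filter (fun v => t < E * cd F v a)).card * t) := by ring
          _ ≤ A * (E * (2 * dg F a)) := by gcongr
          _ = 2 * E * (A * dg F a) := by ring
          _ ≤ 2 * E * t ^ 3 := by gcongr
          _ = (2 * E * t ^ 2) * t := by ring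
      exact Nat.le_of_mul_le_mul_right h5 ht0
    calc H4.card * A ≤ (∑ a ∈ Sat, ((Finset.univ.erase a).filter (fun v => t < E * cd F v a)).card) * A := by
          gcongr
          exact Finset.card_biUnion_le
      _ = ∑ a ∈ Sat, ((Finset.univ.erase a).filter (fun v => t < E * cd F v a)).card * A := by
          rw [Finset.sum_mul]
      _ ≤ ∑ _a ∈ Sat, 2 * E * t ^ 2 := Finset.sum_le_sum h1
      _ = Sat.card * (2 * E * t ^ 2) := by rw [Finset.sum_const, smul_eq_mul]
  have b4 : 8 * H4.card ≤ t ^ 2 := by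
    rcases Nat.eq_zero_or_pos (2 * E * K * N) with hX | hX
    · have hS0 : Sat.card = 0 := by
        rw [hX] at bs
        rcases Nat.mul_eq_zero.1 (Nat.le_zero.1 bs) with h | h
        · exact h
        · omega
      rw [hS0, Nat.zero_mul] at b4'
      rcases Nat.mul_eq_zero.1 (Nat.le_zero.1 b4') with h | h
      · rw [h]
        simp
      · omega
    · have h1 : (2 * E * (2 * E * K * N)) * (8 * H4.card) ≤ (2 * E * (2 * E * K * N)) * t ^ 2 := by
        calc (2 * E * (2 * E * K * N)) * (8 * H4.card) = H4.card * (16 * E * (2 * E * K * N)) := by ring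
          _ ≤ H4.card * (A * r) := by gcongr
          _ = (H4.card * A) * r := by ring
          _ ≤ (Sat.card * (2 * E * t ^ 2)) * r := by gcongr
          _ = (Sat.card * r) * (2 * E * t ^ 2) := by ring
          _ ≤ (2 * E * K * N) * (2 * E * t ^ 2) := by gcongr
          _ = (2 * E * (2 * E * K * N)) * t ^ 2 := by ring
      exact Nat.le_of_mul_le_mul_left h1 (by positivity)
  -- choose
  obtain ⟨v, hv⟩ : ∃ v, v ∉ H1 ∪ H2 ∪ H3 ∪ H4 := by
    by_contra hcon
    push Not at hcon
    have h1 : (Finset.univ : Finset V) ⊆ H1 ∪ H2 ∪ H3 ∪ H4 := fun v _ => hcon v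
    have h2 := Finset.card_le_card h1
    rw [Finset.card_univ, hV] at h2
    have h3 : (H1 ∪ H2 ∪ H3 ∪ H4).card ≤ H1.card + H2.card + H3.card + H4.card := by
      refine (Finset.card_union_le _ _).trans ?_
      gcongr
      refine (Finset.card_union_le _ _).trans ?_
      gcongr
      exact Finset.card_union_le _ _
    have h4 : 4 * (3 * A * C + N + 2 * N * K + 1) * t ≤ t * t := Nat.mul_le_mul_right _ ht
    have h5 : t ^ 2 = t * t := by ring
    have h6 : N * (1 + 2 * K * t) ≤ (N + 2 * N * K) * t := by nlinarith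
    have h7 : 3 * A * C ≤ 3 * A * C * t := Nat.le_mul_of_pos_right _ ht0
    have h8 : 4 * (3 * A * C * t) + 4 * ((N + 2 * N * K) * t) + 4 * t ≤ t * t := by
      calc 4 * (3 * A * C * t) + 4 * ((N + 2 * N * K) * t) + 4 * t
          = 4 * (3 * A * C + N + 2 * N * K + 1) * t := by ring
        _ ≤ t * t := h4
    omega
  simp only [Finset.mem_union, not_or] at hv
  obtain ⟨⟨⟨v1, v2⟩, v3⟩, v4⟩ := hv
  have v1' : A * dg F v ≤ t ^ 3 := by
    by_contra h
    exact v1 (Finset.mem_filter.2 ⟨Finset.mem_univ _, by omega⟩)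
  have v2' : dg F v ≤ K * t := by
    by_contra h
    exact v2 (Finset.mem_filter.2 ⟨Finset.mem_univ _, by omega⟩)
  have v3' : ∀ s ∈ S, v ≠ s ∧ cd F s v = 0 := by
    intro s hs
    have h1 : v ∉ insert s ((Finset.univ.erase s).filter (fun v => 0 < cd F s v)) := by
      intro h
      exact v3 (Finset.mem_biUnion.2 ⟨s, hs, h⟩)
    rw [Finset.mem_insert, not_or] at h1
    refine ⟨h1.1, ?_⟩
    by_contra h2
    exact h1.2 (Finset.mem_filter.2 ⟨Finset.mem_erase.2 ⟨h1.1, Finset.mem_univ _⟩, by omega⟩)
  have v4' : ∀ a ∈ Sat, v ≠ a → E * cd F v a ≤ t := by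
    intro a ha hva
    by_contra h
    exact v4 (Finset.mem_biUnion.2 ⟨a, ha, Finset.mem_filter.2
      ⟨Finset.mem_erase.2 ⟨hva, Finset.mem_univ _⟩, by omega⟩⟩)
  have hvS : v ∉ S := fun h => (v3' v h).1 rfl
  refine ⟨v, hvS, ?_, ?_, ?_⟩
  · intro s hs
    rcases Finset.mem_insert.1 hs with rfl | hs
    · exact ⟨v1', v2'⟩
    · exact c1 s hs
  · intro s hs s' hs' hne
    rcases Finset.mem_insert.1 hs with h1 | h1 <;> rcases Finset.mem_insert.1 hs' with h2 | h2
    · exact absurd (h1.trans h2.symm) hne
    · rw [cd_comm, h1]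
      exact (v3' s' h2).2
    · rw [h2]
      exact (v3' s h1).2
    · exact c2 s h1 s' h2 hne
  · intro a ha
    rw [Finset.filter_insert]
    split_ifs with h
    · have hnS : a ∉ Sat := fun hS => by
        have := v4' a hS h.1
        omega
      have h1 : (S.filter (fun s => s ≠ a ∧ t < E * cd F s a)).card < r := by
        by_contra h2
        exact hnS (Finset.mem_filter.2 ⟨Finset.mem_univ _, ha, by omega⟩)
      exact (Finset.card_insert_le _ _).trans (by omega)
    · exact c3 a ha

theorem seq : S_seq := by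
  intro C K A E N r hK hA hE hr hAr
  refine ⟨4 * (3 * A * C + N + 2 * N * K + 1), ?_⟩
  intro t ht V _ _ F hV hF hFc
  have key : ∀ n ≤ N, ∃ S : Finset V, S.card = n ∧ Ch F t K A E r S := by
    intro n
    induction n with
    | zero =>
      intro _
      refine ⟨∅, rfl, ?_, ?_, ?_⟩
      · intro s hs
        exact absurd hs (Finset.notMem_empty _)
      · intro s hs
        exact absurd hs (Finset.notMem_empty _)
      · intro a _
        simp
    | succ n ih =>
      intro hn
      obtain ⟨S, hS, hCh⟩ := ih (by omega)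
      obtain ⟨v, hv, hv2⟩ := step C K A E N r t hK hA hE hr hAr ht F hV hF hFc S (by omega) hCh
      exact ⟨insert v S, by rw [Finset.card_insert_of_notMem hv, hS], hv2⟩
  obtain ⟨S, hS, c1, c2, c3⟩ := key N le_rfl
  let e : Fin N ≃ S := (Fintype.equivFinOfCardEq (by rw [Fintype.card_coe, hS])).symm
  refine ⟨fun i => (e i : V), ?_, ?_, ?_, ?_⟩
  · intro i j h
    exact e.injective (Subtype.ext h)
  · intro i
    exact c1 _ (e i).2
  · intro i j hij
    exact c2 _ (e i).2 _ (e j).2 (fun h => hij (e.injective (Subtype.ext h)))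
  · intro a ha
    refine le_trans ?_ (c3 a ha)
    apply Finset.card_le_card_of_injOn (fun i => (e i : V))
    · intro i hi
      simp only [Finset.coe_filter, Finset.mem_univ, true_and, Set.mem_ofPred_eq] at hi ⊢
      exact ⟨(e i).2, hi⟩
    · intro i _ j _ h
      exact e.injective (Subtype.ext h)

end Pool.Agent.Q157.SS
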