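import Mathlib
import Pool.Agent.Q157.SS.Seq

/-!
# Project SS: the fixed part

From the sequence `s` of `Seq.lean`: `H` is the set of the heavy vertices, `Y` the set of the vertices `a` outside of `H` and
of the sequence with `E cd (s i) a > t` for some `i < |H|`. The involution `θ` exchanges the elements of `H` with the first
`|H|` elements of the sequence and the elements of `Y` with the next `|Y|` elements.
-/

set_option autoImplicit false

namespace Pool.Agent.Q157.SS

open Equiv Finset

/-- The involution exchanging `β i` and `σ i`. -/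
theorem exists_inv {V ι : Type} (β σ : ι → V) (hβ : Function.Injective β)
    (hσ : Function.Injective σ) (hd : ∀ i j, β i ≠ σ j) :
    ∃ θ : Perm V, (∀ i, θ (β i) = σ i) ∧ ∀ i, θ (σ i) = β i := by
  classical
  let f : V → V := fun v => if h : ∃ i, β i = v then σ h.choose else
    if h : ∃ i, σ i = v then β h.choose else v
  have f1 : ∀ i, f (β i) = σ i := by
    intro i
    have h : ∃ j, β j = β i := ⟨i, rfl⟩
    have h2 : h.choose = i := hβ h.choose_spec
    simp only [f]
    rw [dif_pos h, h2]
  have f2 : ∀ i, f (σ i) = β i := by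
    intro i
    have h : ∃ j, σ j = σ i := ⟨i, rfl⟩
    have h2 : h.choose = i := hσ h.choose_spec
    have h3 : ¬ ∃ j, β j = σ i := fun ⟨j, hj⟩ => hd j i hj
    simp only [f]
    rw [dif_neg h3, dif_pos h, h2]
  have f3 : ∀ v, (¬ ∃ i, β i = v) → (¬ ∃ i, σ i = v) → f v = v := by
    intro v h1 h2
    simp only [f]
    rw [dif_neg h1, dif_neg h2]
  have hinv : Function.Involutive f := by
    intro v
    by_cases h1 : ∃ i, β i = v
    · obtain ⟨i, rfl⟩ := h1
      rw [f1, f2]
    · by_cases h2 : ∃ i, σ i = v
      · obtain ⟨i, rfl⟩ := h2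
        rw [f2, f1]
      · rw [f3 v h1 h2, f3 v h1 h2]
  exact ⟨hinv.toPerm f, f1, f2⟩

section

variable {V : Type} [Fintype V] [DecidableEq V] {ι : Type} [Fintype ι] [DecidableEq ι]

/-- The conditions of `Good` from the properties of `β` and `σ`. -/
theorem good_of (F : Finset (Finset V)) (hF : ∀ f ∈ F, f.card = 3) (C K A E r t A0 B : ℕ)
    (hFc : F.card ≤ C * t ^ 3) (hE : 1 ≤ E) (hr : 1 ≤ r) (hA0 : A0 ≤ A) (hA1 : 1 ≤ A)
    (hA : 9 * r * K * B ≤ A) (hEB : 9 * C * B ≤ E)
    (β σ : ι → V) (hβ : Function.Injective β) (hσ : Function.Injective σ) (hd : ∀ i j, β i ≠ σ j)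
    (θ : Perm V) (t1 : ∀ i, θ (β i) = σ i) (t2 : ∀ i, θ (σ i) = β i)
    (hσK : ∀ i, dg F (σ i) ≤ K * t) (hσc : ∀ i j, i ≠ j → cd F (σ i) (σ j) = 0)
    (hlight : ∀ a, a ∉ Finset.univ.image β ∪ Finset.univ.image σ → A * dg F a ≤ t ^ 3)
    (hbad : ∀ a, a ∉ Finset.univ.image β ∪ Finset.univ.image σ →
      (∀ i, cd F (σ i) a = 0) ∨ ((Finset.univ.filter (fun i => t < E * cd F (σ i) a)).card ≤ r ∧
        ∀ i, t < E * cd F (σ i) a → A * dg F (β i) ≤ t ^ 3)) :
    Good F (Finset.univ.image β ∪ Finset.univ.image σ) θ t K A0 B := by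
  have hmem : ∀ v, v ∈ Finset.univ.image β ∪ Finset.univ.image σ → (∃ i, v = β i) ∨ ∃ i, v = σ i := by
    intro v hv
    rcases Finset.mem_union.1 hv with h | h
    · obtain ⟨i, _, hi⟩ := Finset.mem_image.1 h
      exact Or.inl ⟨i, hi.symm⟩
    · obtain ⟨i, _, hi⟩ := Finset.mem_image.1 h
      exact Or.inr ⟨i, hi.symm⟩
  have hmb : ∀ i, β i ∈ Finset.univ.image β ∪ Finset.univ.image σ := fun i =>
    Finset.mem_union_left _ (Finset.mem_image_of_mem _ (Finset.mem_univ _))
  have hms : ∀ i, σ i ∈ Finset.univ.image β ∪ Finset.univ.image σ := fun i =>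
    Finset.mem_union_right _ (Finset.mem_image_of_mem _ (Finset.mem_univ _))
  refine ⟨?_, ?_, ?_, ?_, ?_⟩
  · intro v hv
    rcases hmem v hv with ⟨i, rfl⟩ | ⟨i, rfl⟩
    · rw [t1, t2]
      exact ⟨hms i, rfl⟩
    · rw [t2, t1]
      exact ⟨hmb i, rfl⟩
  · intro a ha
    exact (Nat.mul_le_mul_right _ hA0).trans (hlight a ha)
  · intro a ha
    have hla := hlight a ha
    have hne : ∀ i, β i ≠ a := fun i h => ha (h ▸ hmb i)
    have hsum : ∑ v ∈ Finset.univ.image β ∪ Finset.univ.image σ, cd F v a * dg F (θ v) =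
        ∑ i, cd F (β i) a * dg F (σ i) + ∑ i, cd F (σ i) a * dg F (β i) := by
      rw [Finset.sum_union, Finset.sum_image (fun i _ j _ h => hβ h),
        Finset.sum_image (fun i _ j _ h => hσ h)]
      · simp_rw [t1, t2]
      · rw [Finset.disjoint_left]
        intro v h1 h2
        obtain ⟨i, _, hi⟩ := Finset.mem_image.1 h1
        obtain ⟨j, _, hj⟩ := Finset.mem_image.1 h2
        exact hd i j (hi.trans hj.symm)
    rw [hsum]
    -- the first sum
    have s1 : ∑ i, cd F (β i) a * dg F (σ i) ≤ 2 * dg F a * (K * t) := by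
      calc ∑ i, cd F (β i) a * dg F (σ i) ≤ ∑ i, cd F (β i) a * (K * t) := by
            apply Finset.sum_le_sum
            intro i _
            exact Nat.mul_le_mul_left _ (hσK i)
        _ = (∑ i, cd F (β i) a) * (K * t) := by rw [Finset.sum_mul]
        _ ≤ 2 * dg F a * (K * t) := by
            apply Nat.mul_le_mul_right
            rw [← cd_sum F hF a]
            calc ∑ i, cd F (β i) a = ∑ v ∈ Finset.univ.image β, cd F a v := by
                  rw [Finset.sum_image (fun i _ j _ h => hβ h)]
                  simp_rw [cd_comm F _ a]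
              _ ≤ ∑ v ∈ Finset.univ.erase a, cd F a v := by
                  apply Finset.sum_le_sum_of_subset
                  intro v hv
                  obtain ⟨i, _, hi⟩ := Finset.mem_image.1 hv
                  exact Finset.mem_erase.2 ⟨hi ▸ hne i, Finset.mem_univ _⟩
    -- the second sum
    have s2 : E * A * ∑ i, cd F (σ i) a * dg F (β i) ≤ A * (3 * C * t ^ 4) + E * (r * K * t ^ 4) := by
      rcases hbad a ha with h0 | ⟨hb1, hb2⟩
      · simp [h0]
      · have hdb : ∑ i, dg F (β i) ≤ 3 * (C * t ^ 3) := by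
          calc ∑ i, dg F (β i) = ∑ v ∈ Finset.univ.image β, dg F v := by
                rw [Finset.sum_image (fun i _ j _ h => hβ h)]
            _ ≤ ∑ v, dg F v := Finset.sum_le_sum_of_subset (Finset.subset_univ _)
            _ = 3 * F.card := dg_sum F hF
            _ ≤ 3 * (C * t ^ 3) := by gcongr
        have e1 : ∀ i, E * A * (cd F (σ i) a * dg F (β i)) ≤
            A * t * dg F (β i) + if t < E * cd F (σ i) a then E * K * t ^ 4 else 0 := by
          intro i
          split_ifs with h
          · have g1 := hb2 i h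
            have g2 : cd F (σ i) a ≤ K * t := (cd_le_dg F _ _).trans (hσK i)
            calc E * A * (cd F (σ i) a * dg F (β i)) = E * (cd F (σ i) a * (A * dg F (β i))) := by ring
              _ ≤ E * (K * t * t ^ 3) := by gcongr
              _ = E * K * t ^ 4 := by ring
              _ ≤ _ := Nat.le_add_left _ _
          · calc E * A * (cd F (σ i) a * dg F (β i)) = A * (E * cd F (σ i) a) * dg F (β i) := by ring
              _ ≤ A * t * dg F (β i) := by
                gcongr
                omega
              _ ≤ _ := Nat.le_add_right _ _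
        calc E * A * ∑ i, cd F (σ i) a * dg F (β i)
            = ∑ i, E * A * (cd F (σ i) a * dg F (β i)) := by rw [Finset.mul_sum]
          _ ≤ ∑ i, (A * t * dg F (β i) + if t < E * cd F (σ i) a then E * K * t ^ 4 else 0) :=
              Finset.sum_le_sum (fun i _ => e1 i)
          _ = A * t * ∑ i, dg F (β i) +
              (Finset.univ.filter (fun i => t < E * cd F (σ i) a)).card * (E * K * t ^ 4) := by
              rw [Finset.sum_add_distrib, ← Finset.mul_sum, ← Finset.sum_filter, Finset.sum_const,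
                smul_eq_mul]
          _ ≤ A * t * (3 * (C * t ^ 3)) + r * (E * K * t ^ 4) := by gcongr
          _ = A * (3 * C * t ^ 4) + E * (r * K * t ^ 4) := by ring
    -- together
    have hEA : 0 < E * A := by positivity
    refine Nat.le_of_mul_le_mul_left ?_ hEA
    have k1 : E * A * (B * (∑ i, cd F (β i) a * dg F (σ i) + ∑ i, cd F (σ i) a * dg F (β i))) ≤
        E * B * (2 * K * t) * (A * dg F a) + B * (A * (3 * C * t ^ 4) + E * (r * K * t ^ 4)) := by
      calc E * A * (B * (∑ i, cd F (β i) a * dg F (σ i) + ∑ i, cd F (σ i) a * dg F (β i)))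
          = E * A * B * (∑ i, cd F (β i) a * dg F (σ i)) +
            B * (E * A * ∑ i, cd F (σ i) a * dg F (β i)) := by ring
        _ ≤ E * A * B * (2 * dg F a * (K * t)) + B * (A * (3 * C * t ^ 4) + E * (r * K * t ^ 4)) := by
            gcongr
        _ = _ := by ring
    refine k1.trans ?_
    calc E * B * (2 * K * t) * (A * dg F a) + B * (A * (3 * C * t ^ 4) + E * (r * K * t ^ 4))
        ≤ E * B * (2 * K * t) * t ^ 3 + B * (A * (3 * C * t ^ 4) + E * (r * K * t ^ 4)) := by gcongr
      _ = (E * (2 * K * B + r * K * B) + A * (3 * C * B)) * t ^ 4 := by ring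
      _ ≤ (E * A) * t ^ 4 := by
        apply Nat.mul_le_mul_right
        have q1 : 2 * K * B ≤ 2 * (r * K * B) := by
          have : K * B ≤ r * (K * B) := Nat.le_mul_of_pos_left _ hr
          nlinarith
        have q2 : 3 * (2 * K * B + r * K * B) ≤ A := by nlinarith
        have q3 : 3 * (3 * C * B) ≤ E := by nlinarith
        have q4 : 3 * (E * (2 * K * B + r * K * B)) ≤ E * A := by
          calc 3 * (E * (2 * K * B + r * K * B)) = E * (3 * (2 * K * B + r * K * B)) := by ring
            _ ≤ E * A := Nat.mul_le_mul_left _ q2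
        have q5 : 3 * (A * (3 * C * B)) ≤ E * A := by
          calc 3 * (A * (3 * C * B)) = (3 * (3 * C * B)) * A := by ring
            _ ≤ E * A := Nat.mul_le_mul_right _ q3
        omega
  · intro u hu v hv huv _
    rcases hmem u hu with ⟨i, rfl⟩ | ⟨i, rfl⟩ <;> rcases hmem v hv with ⟨j, rfl⟩ | ⟨j, rfl⟩
    · rw [t1, t1, hσc i j (fun h => huv (by rw [h]))]
      exact Nat.zero_le _
    · rw [t1, t2]
      exact (cd_le_dg F _ _).trans (hσK i)
    · rw [t1, t2, cd_comm]
      exact (cd_le_dg F _ _).trans (hσK j)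
    · rename_i hcd
      exact absurd (hσc i j (fun h => huv (by rw [h]))) hcd
  · intro f hf hfD hθ
    -- two elements on the side of `σ` are impossible for a set in `F`
    have key : ∀ e ∈ F, ∀ i j, σ i ∈ e → σ j ∈ e → i = j := by
      intro e he i j hi hj
      by_contra hne
      have h0 := hσc i j hne
      unfold cd at h0
      rw [Finset.card_eq_zero, Finset.filter_eq_empty_iff] at h0
      exact h0 he ⟨hi, hj⟩
    have h3 := hF f hf
    have h1 : (f.filter (fun v => v ∈ Finset.univ.image σ)).card ≤ 1 := by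
      rw [Finset.card_le_one]
      intro a ha b hb
      rw [Finset.mem_filter] at ha hb
      obtain ⟨i, _, hi⟩ := Finset.mem_image.1 ha.2
      obtain ⟨j, _, hj⟩ := Finset.mem_image.1 hb.2
      rw [← hi, ← hj, key f hf i j (hi ▸ ha.1) (hj ▸ hb.1)]
    have h2 : (f.filter (fun v => ¬ v ∈ Finset.univ.image σ)).card ≤ 1 := by
      rw [Finset.card_le_one]
      intro a ha b hb
      rw [Finset.mem_filter] at ha hb
      obtain ⟨i, hi⟩ : ∃ i, a = β i := by
        rcases hmem a (hfD ha.1) with h | ⟨i, hi⟩
        · exact h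
        · exact absurd (hi ▸ Finset.mem_image_of_mem _ (Finset.mem_univ _)) ha.2
      obtain ⟨j, hj⟩ : ∃ j, b = β j := by
        rcases hmem b (hfD hb.1) with h | ⟨i, hi⟩
        · exact h
        · exact absurd (hi ▸ Finset.mem_image_of_mem _ (Finset.mem_univ _)) hb.2
      have e1 : σ i ∈ f.image θ := by
        rw [← t1, ← hi]
        exact Finset.mem_image_of_mem _ ha.1
      have e2 : σ j ∈ f.image θ := by
        rw [← t1, ← hj]
        exact Finset.mem_image_of_mem _ hb.1
      rw [hi, hj, key _ hθ i j e1 e2]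
    have h4 := Finset.card_filter_add_card_filter_not (s := f) (fun v => v ∈ Finset.univ.image σ)
    omega

end

theorem sel (hseq : S_seq) : S_sel := by
  intro C A0 B
  obtain ⟨K, hK⟩ : ∃ K, K = 24 * C := ⟨_, rfl⟩
  obtain ⟨E, hE⟩ : ∃ E, E = 9 * C * B + 1 := ⟨_, rfl⟩
  obtain ⟨r, hr⟩ : ∃ r, r = 96 * E * E * K * C * (1 + 2 * E * K) + 1 := ⟨_, rfl⟩
  obtain ⟨A, hA⟩ : ∃ A, A = A0 + 9 * r * K * B + 1 := ⟨_, rfl⟩
  obtain ⟨N, hN⟩ : ∃ N, N = 3 * A * C * (1 + 2 * E * K) := ⟨_, rfl⟩
  obtain ⟨t0, ht0⟩ := hseq C K A E N r (by omega) (by omega) (by omega) (by omega) (by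
    rw [hN]
    calc 16 * E * (2 * E * K * (3 * A * C * (1 + 2 * E * K)))
        = A * (96 * E * E * K * C * (1 + 2 * E * K)) := by ring
      _ ≤ A * r := Nat.mul_le_mul_left _ (by omega))
  refine ⟨2 * N, K, t0 + 1, ?_⟩
  intro t ht V _ _ F hV hF hFc
  obtain ⟨s, s1, s2, s3, s4⟩ := ht0 t (by omega) V F hV hF hFc
  have ht1 : 0 < t := by omega
  classical
  set H := Finset.univ.filter (fun v => t ^ 3 < A * dg F v) with hH
  have b1 : H.card ≤ 3 * A * C := by
    have h1 := markov (Finset.univ : Finset V) (fun v => A * dg F v) (t ^ 3) (3 * A * C * t ^ 3) (by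
      rw [← Finset.mul_sum, dg_sum F hF]
      calc A * (3 * F.card) ≤ A * (3 * (C * t ^ 3)) := by gcongr
        _ = 3 * A * C * t ^ 3 := by ring)
    exact Nat.le_of_mul_le_mul_right h1 (by positivity)
  set Y := Finset.univ.filter (fun a => a ∉ H ∧ a ∉ Finset.univ.image s ∧
    ∃ i : Fin N, (i : ℕ) < H.card ∧ t < E * cd F (s i) a) with hY
  have bY : Y.card ≤ H.card * (2 * E * K) := by
    have h1 : Y ⊆ (Finset.univ.filter (fun i : Fin N => (i : ℕ) < H.card)).biUnion
        (fun i => (Finset.univ.erase (s i)).filter (fun a => t < E * cd F (s i) a)) := by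
      intro a ha
      obtain ⟨_, h2, h3, i, h4, h5⟩ := Finset.mem_filter.1 ha
      refine Finset.mem_biUnion.2 ⟨i, Finset.mem_filter.2 ⟨Finset.mem_univ _, h4⟩,
        Finset.mem_filter.2 ⟨Finset.mem_erase.2 ⟨?_, Finset.mem_univ _⟩, h5⟩⟩
      intro h
      exact h3 (h ▸ Finset.mem_image_of_mem _ (Finset.mem_univ _))
    have h2 : (Finset.univ.filter (fun i : Fin N => (i : ℕ) < H.card)).card ≤ H.card := by
      calc (Finset.univ.filter (fun i : Fin N => (i : ℕ) < H.card)).card
          ≤ (Finset.range H.card).card := by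
            apply Finset.card_le_card_of_injOn (fun i : Fin N => (i : ℕ))
            · intro i hi
              simp only [Finset.coe_filter, Finset.mem_univ, true_and, Set.mem_ofPred_eq] at hi
              simpa using hi
            · intro i _ j _ h
              exact Fin.ext h
        _ = H.card := Finset.card_range _
    refine (Finset.card_le_card h1).trans ((Finset.card_biUnion_le_card_mul _ _ (2 * E * K) ?_).trans
      (Nat.mul_le_mul_right _ h2))
    intro i _
    have h4 := markov (Finset.univ.erase (s i)) (fun a => E * cd F (s i) a) t (2 * E * K * t) (by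
      rw [← Finset.mul_sum, cd_sum F hF (s i)]
      calc E * (2 * dg F (s i)) ≤ E * (2 * (K * t)) := by
            have := (s2 i).2
            gcongr
        _ = 2 * E * K * t := by ring)
    exact Nat.le_of_mul_le_mul_right h4 ht1
  have hHN : H.card + Y.card ≤ N := by
    calc H.card + Y.card ≤ H.card + H.card * (2 * E * K) := by gcongr
      _ = H.card * (1 + 2 * E * K) := by ring
      _ ≤ 3 * A * C * (1 + 2 * E * K) := Nat.mul_le_mul_right _ b1
      _ = N := hN.symm
  let p : Fin H.card ⊕ Fin Y.card → Fin N := fun x => Fin.castLE hHN (finSumFinEquiv x)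
  have hp : Function.Injective p := fun x y h =>
    finSumFinEquiv.injective (Fin.castLE_injective hHN h)
  let β : Fin H.card ⊕ Fin Y.card → V :=
    Sum.elim (fun i => (H.equivFin.symm i : V)) (fun j => (Y.equivFin.symm j : V))
  let σ : Fin H.card ⊕ Fin Y.card → V := fun x => s (p x)
  have hσ : Function.Injective σ := s1.comp hp
  have hbl : ∀ i, β (Sum.inl i) ∈ H := fun i => (H.equivFin.symm i).2
  have hbr : ∀ i, β (Sum.inr i) ∈ Y := fun i => (Y.equivFin.symm i).2
  have hYH : ∀ a ∈ Y, a ∉ H := fun a ha => (Finset.mem_filter.1 ha).2.1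
  have hβ : Function.Injective β := by
    rintro (i | i) (j | j) h
    · exact congrArg Sum.inl (H.equivFin.symm.injective (Subtype.ext h))
    · exact absurd (h ▸ hbl i) (hYH _ (hbr j))
    · exact absurd (h ▸ hbl j) (hYH _ (hbr i))
    · exact congrArg Sum.inr (Y.equivFin.symm.injective (Subtype.ext h))
  have hsH : ∀ i, s i ∉ H := by
    intro i hi
    have h1 := (Finset.mem_filter.1 hi).2
    have h2 := (s2 i).1
    omega
  have hd : ∀ i j, β i ≠ σ j := by
    rintro (i | i) j h
    · have h1 := hbl i
      rw [h] at h1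
      exact hsH (p j) h1
    · have h1 := (Finset.mem_filter.1 (hbr i)).2.2.1
      exact h1 (Finset.mem_image.2 ⟨p j, Finset.mem_univ _, h.symm⟩)
  have hHβ : ∀ a ∈ H, ∃ i, β i = a := by
    intro a ha
    refine ⟨Sum.inl (H.equivFin ⟨a, ha⟩), ?_⟩
    show ((H.equivFin.symm (H.equivFin ⟨a, ha⟩) : H) : V) = a
    rw [Equiv.symm_apply_apply]
  have hYβ : ∀ a ∈ Y, ∃ i, β i = a := by
    intro a ha
    refine ⟨Sum.inr (Y.equivFin ⟨a, ha⟩), ?_⟩
    show ((Y.equivFin.symm (Y.equivFin ⟨a, ha⟩) : Y) : V) = a
    rw [Equiv.symm_apply_apply]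
  obtain ⟨θ, t1, t2⟩ := exists_inv β σ hβ hσ hd
  have hlight : ∀ a, a ∉ Finset.univ.image β ∪ Finset.univ.image σ → A * dg F a ≤ t ^ 3 := by
    intro a ha
    by_contra h
    obtain ⟨i, hi⟩ := hHβ a (Finset.mem_filter.2 ⟨Finset.mem_univ _, by omega⟩)
    exact ha (Finset.mem_union_left _ (Finset.mem_image.2 ⟨i, Finset.mem_univ _, hi⟩))
  refine ⟨Finset.univ.image β ∪ Finset.univ.image σ, θ, ?_, ?_⟩
  · have c1 : (Finset.univ.image β).card ≤ H.card + Y.card := by
      refine Finset.card_image_le.trans ?_
      rw [Finset.card_univ, Fintype.card_sum, Fintype.card_fin, Fintype.card_fin]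
    have c2 : (Finset.univ.image σ).card ≤ H.card + Y.card := by
      refine Finset.card_image_le.trans ?_
      rw [Finset.card_univ, Fintype.card_sum, Fintype.card_fin, Fintype.card_fin]
    have c3 := Finset.card_union_le (Finset.univ.image β) (Finset.univ.image σ)
    omega
  · refine good_of F hF C K A E r t A0 B hFc (by omega) (by omega) (by omega) (by omega) (by omega)
      (by omega) β σ hβ hσ hd θ t1 t2 (fun i => (s2 _).2) (fun i j hij => s3 _ _ (fun h => hij (hp h)))
      hlight ?_
    intro a ha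
    by_cases has : a ∈ Finset.univ.image s
    · left
      intro i
      obtain ⟨j, _, hj⟩ := Finset.mem_image.1 has
      rw [← hj]
      apply s3
      intro h
      apply ha
      refine Finset.mem_union_right _ (Finset.mem_image.2 ⟨i, Finset.mem_univ _, ?_⟩)
      show s (p i) = a
      rw [h, hj]
    · right
      have haH : a ∉ H := by
        intro h
        obtain ⟨i, hi⟩ := hHβ a h
        exact ha (Finset.mem_union_left _ (Finset.mem_image.2 ⟨i, Finset.mem_univ _, hi⟩))
      have haY : a ∉ Y := by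
        intro h
        obtain ⟨i, hi⟩ := hYβ a h
        exact ha (Finset.mem_union_left _ (Finset.mem_image.2 ⟨i, Finset.mem_univ _, hi⟩))
      constructor
      · refine le_trans ?_ (s4 a (hlight a ha))
        apply Finset.card_le_card_of_injOn p
        · intro i hi
          simp only [Finset.coe_filter, Finset.mem_univ, true_and, Set.mem_ofPred_eq] at hi ⊢
          refine ⟨?_, hi⟩
          intro h
          exact has (Finset.mem_image.2 ⟨p i, Finset.mem_univ _, h⟩)
        · exact hp.injOn
      · intro i hi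
        rcases i with i | i
        · exfalso
          apply haY
          refine Finset.mem_filter.2 ⟨Finset.mem_univ _, haH, has, p (Sum.inl i), ?_, hi⟩
          show ((Fin.castLE hHN (finSumFinEquiv (Sum.inl i : Fin H.card ⊕ Fin Y.card)) : Fin N) : ℕ) < H.card
          rw [finSumFinEquiv_apply_left]
          simp
        · have h1 := hYH _ (hbr i)
          by_contra h
          exact h1 (Finset.mem_filter.2 ⟨Finset.mem_univ _, by omega⟩)

end Pool.Agent.Q157.SS
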