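import Mathlib
import Pool.Agent.Q157.SS.Sel

/-!
# Project SS: the combinatorial theorem
-/

set_option autoImplicit false

namespace Pool.Agent.Q157.SS

theorem sep (huse : S_use) (hsel : S_sel) : S_sep := by
  intro C
  obtain ⟨N, K, t0, h⟩ := hsel C (216 * 72 * C) (108 * 72)
  refine ⟨t0 + (54 * 72 * N ^ 2 * K + 1) + (2 * N + 4), ?_⟩
  intro t ht V _ _ F hV hF hFc
  obtain ⟨D, θ, hD, hG⟩ := h t (by omega) V F hV hF hFc
  exact huse C K N t V F D θ hV hF hFc hD (by omega) (by omega) hG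

end Pool.Agent.Q157.SS
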